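import Pool.Agent.H951R3.U.U3
import Pool.Agent.H951R3.U.U4

set_option autoImplicit false

/-!
A lower bound in the `n`-term abc conjecture, outside every proper Zariski closed subset.
-/

namespace Pool.Agent.Results.MP_7475bd_nt.BeyondEveryClosedSet

open Pool.Agent.H951R3

/-- `h(P)` for the rational point `P` with integer homogeneous coordinates `z`: the sum over all
places `v` of `ℚ` of `log max |z i|_v`, that is `log max |z i| - log gcd (z i)` -/
noncomputable def height {n : ℕ} (z : Fin n → ℤ) : ℝ :=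
  Real.log ((Finset.univ.sup fun i => (z i).natAbs : ℕ) : ℝ) -
    Real.log ((Finset.univ.gcd fun i => (z i).natAbs : ℕ) : ℝ)

open Classical in
/-- `rad(P)` for the rational point `P` with nonzero integer homogeneous coordinates `z`: the sum
of `log p` over the primes `p` at which the `ord_p (z i)` are not all equal -/
noncomputable def radical {n : ℕ} (z : Fin n → ℤ) : ℝ :=
  ∑ p ∈ (∏ i, (z i).natAbs).primeFactors with (∃ i j, padicValInt p (z i) ≠ padicValInt p (z j)),
    Real.log p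

/-- The Zariski closed subset of the hyperplane `Z_1 + ⋯ + Z_n = 0` of `ℙ^(n-1)` cut out by a set
of forms with complex coefficients, as a set of vectors of homogeneous coordinates. The hyperplane
itself is `locus ∅`. -/
def locus {n : ℕ} (G : Set (MvPolynomial (Fin n) ℂ)) : Set (Fin n → ℂ) :=
  {w | w ≠ 0 ∧ ∑ i, w i = 0 ∧ ∀ F ∈ G, MvPolynomial.eval w F = 0}

/-- **Main theorem.** -/
theorem result (n : ℕ) (hn : 3 ≤ n) (G : Set (MvPolynomial (Fin n) ℂ))
    (hG : ∀ F ∈ G, ∃ d, F.IsHomogeneous d) (hproper : locus G ≠ locus ∅)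
    (κ : ℝ) (hκ : κ < ((n : ℝ) - 1) ^ 2 / ((n : ℝ) - 2) ^ ((2 * (n : ℝ) - 3) / ((n : ℝ) - 1)))
    (B : ℝ) :
    ∃ z : Fin n → ℤ, (∀ i, z i ≠ 0) ∧ ∑ i, z i = 0 ∧ (fun i => (z i : ℂ)) ∉ locus G ∧
      B ≤ height z ∧
      radical z + κ * height z ^ (((n : ℝ) - 2) / ((n : ℝ) - 1)) / Real.log (height z) ≤
        height z := by
  classical
  obtain ⟨k, rfl⟩ : ∃ k, n = k + 2 := ⟨n - 2, by omega⟩
  have hk : 1 ≤ k := by omega
  have hkR : (1 : ℝ) ≤ k := by exact_mod_cast hk
  have hk0 : (0 : ℝ) < k := by linarith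
  -- a form of `G` which does not vanish on the hyperplane
  obtain ⟨F, hFG, w, hw, hFw⟩ : ∃ F ∈ G, ∃ w : Fin (k + 2) → ℂ, ∑ i, w i = 0 ∧
      MvPolynomial.eval w F ≠ 0 := by
    by_contra hcon
    push Not at hcon
    apply hproper
    ext w
    constructor
    · rintro ⟨h1, h2, h3⟩
      exact ⟨h1, h2, fun F hF => absurd hF (Set.notMem_empty F)⟩
    · rintro ⟨h1, h2, h3⟩
      exact ⟨h1, h2, fun F hF => hcon F hF w h2⟩
  obtain ⟨d, hFd⟩ := hG F hFG
  obtain ⟨D, hD⟩ := U.main_alg F hFd ⟨w, hw, hFw⟩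
  -- exponents
  have e1 : (((k + 2 : ℕ) : ℝ) - 2) = k := by push_cast; ring
  have e2 : (((k + 2 : ℕ) : ℝ) - 1) = k + 1 := by push_cast; ring
  have e3 : (2 * ((k + 2 : ℕ) : ℝ) - 3) = 2 * k + 1 := by push_cast; ring
  rw [e1, e2, e3] at hκ
  rw [e1, e2]
  set κ' : ℝ := max κ 0 with hκ'
  have hpow : (0 : ℝ) < (k : ℝ) ^ ((2 * (k : ℝ) + 1) / (k + 1)) := Real.rpow_pos_of_pos hk0 _
  have hκ'lt : κ' * (k : ℝ) ^ ((2 * k + 1 : ℝ) / (k + 1)) / (k + 1) ^ 2 < 1 := by
    rw [div_lt_one (by positivity), ← lt_div_iff₀ hpow]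
    exact max_lt hκ (by positivity)
  obtain ⟨y, t, L, A, hy, hA, hmod, hAD, hfin⟩ :=
    U.main_num hk (le_max_right κ 0) hκ'lt D (max B (Real.exp 1))
  obtain ⟨z, hz0, hzs, hFz, hht, hgain⟩ := hD y t L A hy hA hmod hAD
  have hht' : U.ht z = height z := rfl
  have hrad' : U.radz z = radical z := rfl
  rw [hht'] at hht hgain
  rw [hrad'] at hgain
  have hrad0 : 0 ≤ radical z := Finset.sum_nonneg fun p _ => Real.log_natCast_nonneg p
  obtain ⟨hB, hle⟩ := hfin (height z) (radical z) hrad0 hht hgain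
  have hB1 : Real.exp 1 ≤ height z := (le_max_right _ _).trans hB
  have h1e : (1 : ℝ) < Real.exp 1 := Real.one_lt_exp_iff.mpr one_pos
  have hh0 : 0 < height z := by linarith
  have hlh : 0 < Real.log (height z) := Real.log_pos (by linarith)
  refine ⟨z, hz0, hzs, fun hz => hFz (hz.2.2 F hFG), (le_max_left _ _).trans hB, ?_⟩
  have h1 : κ * height z ^ ((k : ℝ) / (k + 1)) / Real.log (height z) ≤
      κ' * (height z ^ ((k : ℝ) / (k + 1)) / Real.log (height z)) := by
    rw [mul_div_assoc]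
    exact mul_le_mul_of_nonneg_right (le_max_left _ _) (by positivity)
  linarith

end Pool.Agent.Results.MP_7475bd_nt.BeyondEveryClosedSet
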